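import Mathlib

/-!
# MP_b831a3_al, Q1: a thin finitely generated semigroup whose automorphic closure is everything

For every rank `r ≥ 2` there is a finitely generated subsemigroup `M` of the free group `F_r` of
density `0` whose automorphic closure is `F_r ∖ {1}`, hence has density `1`.

`M` is generated by all reduced words of length at most `4` which start with a letter `y^{±1}`, end
with a letter different from `y^{±1}`, and do not contain two adjacent letters `y^{±1}`, where `y` is
a fixed generator.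
-/

set_option autoImplicit false
set_option linter.unusedSectionVars false

namespace Pool.Agent.Results.MP_b831a3_al.DenseAutomorphicClosure

open FreeGroup

section alg

variable {r : ℕ} (o a : Fin r)

/-- The sign of a letter. -/
def sg (b : Bool) : ℤ := if b then 1 else -1

theorem mk_cons' (x : Fin r × Bool) (L : List (Fin r × Bool)) : mk (x :: L) = mk [x] * mk L := by
  rw [mul_mk]; rfl

theorem mk_letter (j : Fin r) (b : Bool) : mk [(j, b)] = (FreeGroup.of j) ^ sg b := by
  cases b
  · have : mk [(j, false)] = (FreeGroup.of j)⁻¹ := by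
      rw [FreeGroup.of, inv_mk]; simp [invRev]
    rw [this]; simp [sg]
  · simp [sg, FreeGroup.of]

/-- Two adjacent letters are neither inverse to each other nor both of type `o`. -/
def Rel (x y : Fin r × Bool) : Prop := (x.1 = y.1 → x.2 = y.2) ∧ ¬ (x.1 = o ∧ y.1 = o)

/-- Reduced words starting with a letter of type `o`, ending with a letter of another type, and
without two adjacent letters of type `o`. -/
def Good (w : FreeGroup (Fin r)) : Prop :=
  List.IsChain (Rel o) w.toWord ∧ (∃ x L, w.toWord = x :: L ∧ x.1 = o) ∧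
    ∃ x L, w.toWord = L ++ [x] ∧ x.1 ≠ o

theorem reduced_of_chain {L : List (Fin r × Bool)} (h : List.IsChain (Rel o) L) : IsReduced L :=
  h.imp (fun _ _ h => h.1)

theorem good_mul (v w : FreeGroup (Fin r)) (hv : Good o v) (hw : Good o w) : Good o (v * w) := by
  obtain ⟨h1, ⟨x, L, h2, h3⟩, ⟨x', L', h4, h5⟩⟩ := hv
  obtain ⟨k1, ⟨z, K, k2, k3⟩, ⟨z', K', k4, k5⟩⟩ := hw
  have hch : List.IsChain (Rel o) (v.toWord ++ w.toWord) := by
    rw [List.isChain_append]
    refine ⟨h1, k1, ?_⟩
    intro p hp q hq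
    rw [h4, List.getLast?_append_of_ne_nil _ (by simp), List.getLast?_singleton,
      Option.mem_some_iff] at hp
    rw [k2, List.head?_cons, Option.mem_some_iff] at hq
    subst hp hq
    refine ⟨fun h => absurd (h.trans k3) h5, fun h => h5 h.1⟩
  have hw : (v * w).toWord = v.toWord ++ w.toWord := by
    rw [toWord_mul, (reduced_of_chain o hch).reduce_eq]
  refine ⟨by rw [hw]; exact hch, ⟨x, L ++ w.toWord, by rw [hw, h2]; rfl, h3⟩,
    ⟨z', v.toWord ++ K', by rw [hw, k4]; simp, k5⟩⟩

/-- The generating set. -/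
def gens : Set (FreeGroup (Fin r)) := {w | Good o w ∧ w.norm ≤ 4}

theorem ball_finite (n : ℕ) : {w : FreeGroup (Fin r) | w.norm ≤ n}.Finite := by
  have h : {w : FreeGroup (Fin r) | w.norm ≤ n} ⊆
      (fun l : List (Fin r × Bool) => FreeGroup.mk l) '' {l | l.length ≤ n} := by
    intro w hw
    exact ⟨w.toWord, hw, mk_toWord⟩
  exact ((List.finite_length_le (Fin r × Bool) n).image _).subset h

theorem gens_finite : (gens o).Finite :=
  (ball_finite 4).subset (fun _ hw => hw.2)

/-- The semigroup. -/
def M : Subsemigroup (FreeGroup (Fin r)) := Subsemigroup.closure (gens o)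

theorem good_of_mem (w : FreeGroup (Fin r)) (hw : w ∈ M o) : Good o w := by
  unfold M at hw
  induction hw using Subsemigroup.closure_induction with
  | mem x hx => exact hx.1
  | mul x y _ _ hx hy => exact good_mul o x y hx hy

/-- Basic elements of the semigroup. -/
theorem basic_mem (b : Bool) (u : FreeGroup (Fin r)) (hu : u ≠ 1) (hn : u.norm ≤ 3)
    (ho : ∀ x ∈ u.toWord, x.1 ≠ o) : (FreeGroup.of o) ^ sg b * u ∈ M o := by
  apply Subsemigroup.subset_closure
  have hne : u.toWord ≠ [] := by rwa [Ne, toWord_eq_nil_iff]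
  have hchu : List.IsChain (Rel o) u.toWord := by
    have h1 : List.IsChain (fun x y : Fin r × Bool => (x.1 = y.1 → x.2 = y.2)) u.toWord :=
      isReduced_toWord
    have h2 : ∀ L : List (Fin r × Bool), (∀ x ∈ L, x.1 ≠ o) →
        List.IsChain (fun x y : Fin r × Bool => (x.1 = y.1 → x.2 = y.2)) L →
        List.IsChain (Rel o) L := by
      intro L
      induction L with
      | nil => intro _ _; exact List.isChain_nil
      | cons x L ih =>
        intro hL hc
        rw [List.isChain_cons] at hc ⊢
        refine ⟨fun y hy => ⟨hc.1 y hy, fun h => hL x List.mem_cons_self h.1⟩,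
          ih (fun y hy => hL y (List.mem_cons_of_mem _ hy)) hc.2⟩
    exact h2 _ ho h1
  have hch : List.IsChain (Rel o) ((o, b) :: u.toWord) := by
    rw [List.isChain_cons]
    refine ⟨fun y hy => ?_, hchu⟩
    have hy' : y ∈ u.toWord := List.mem_of_mem_head? hy
    exact ⟨fun h => absurd h.symm (ho y hy'), fun h => ho y hy' h.2⟩
  have hw : ((FreeGroup.of o) ^ sg b * u).toWord = (o, b) :: u.toWord := by
    have e : (FreeGroup.of o) ^ sg b * u = mk ((o, b) :: u.toWord) := by
      rw [mk_cons', mk_letter, mk_toWord]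
    rw [e, toWord_mk, (reduced_of_chain o hch).reduce_eq]
  refine ⟨⟨by rw [hw]; exact hch, ⟨(o, b), u.toWord, hw, rfl⟩, ?_⟩, ?_⟩
  · obtain ⟨L, x, hx⟩ := List.eq_nil_or_concat u.toWord |>.resolve_left hne
    refine ⟨x, (o, b) :: L, by rw [hw, hx]; simp, ho x (by rw [hx]; simp)⟩
  · rw [FreeGroup.norm, hw]
    rw [FreeGroup.norm] at hn
    simp only [List.length_cons]
    omega

/-- The parity homomorphism. -/
def par : FreeGroup (Fin r) →* Multiplicative (ZMod 2) :=
  FreeGroup.lift (fun _ => Multiplicative.ofAdd (1 : ZMod 2))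

theorem par_letter (x : Fin r × Bool) : par (mk [x]) = Multiplicative.ofAdd (1 : ZMod 2) := by
  obtain ⟨j, b⟩ := x
  have : par (FreeGroup.of j) = Multiplicative.ofAdd (1 : ZMod 2) := by simp [par]
  rw [mk_letter, _root_.map_zpow, this]
  cases b <;> decide

/-- The elements `y^s (a^s x a^t)`. -/
theorem block_mem (hao : a ≠ o) (x : Fin r × Bool) (hx : x.1 ≠ o) (b c : Bool) :
    (FreeGroup.of o) ^ sg b * ((FreeGroup.of a) ^ sg b * mk [x] * (FreeGroup.of a) ^ sg c) ∈ M o := by
  have e : (FreeGroup.of a) ^ sg b * mk [x] * (FreeGroup.of a) ^ sg c =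
      mk [(a, b), x, (a, c)] := by
    rw [← mk_letter, ← mk_letter, mul_mk, mul_mk]; rfl
  apply basic_mem
  · intro h
    have h1 := congrArg par h
    rw [_root_.map_one, ← mk_letter, ← mk_letter, _root_.map_mul, _root_.map_mul, par_letter,
      par_letter, par_letter] at h1
    exact absurd h1 (by decide)
  · rw [e]
    exact norm_mk_le
  · rw [e]
    intro z hz
    rw [toWord_mk] at hz
    have hz' := (reduce.red (L := [(a, b), x, (a, c)])).sublist.subset hz
    simp only [List.mem_cons, List.not_mem_nil, or_false] at hz'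
    rcases hz' with rfl | rfl | rfl
    · exact hao
    · exact hx
    · exact hao

/-- The elements `y^s a^{2s}`. -/
theorem run_mem (hao : a ≠ o) (b : Bool) :
    (FreeGroup.of o) ^ sg b * ((FreeGroup.of a) ^ sg b * (FreeGroup.of a) ^ sg b) ∈ M o := by
  have e : (FreeGroup.of a) ^ sg b * (FreeGroup.of a) ^ sg b = mk [(a, b), (a, b)] := by
    rw [← mk_letter, mul_mk]; rfl
  have hred : IsReduced [(a, b), (a, b)] := by simp [FreeGroup.IsReduced]
  have hw : ((FreeGroup.of a) ^ sg b * (FreeGroup.of a) ^ sg b).toWord = [(a, b), (a, b)] := by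
    rw [e, toWord_mk, hred.reduce_eq]
  apply basic_mem
  · rw [Ne, ← toWord_eq_nil_iff, hw]; simp
  · rw [FreeGroup.norm, hw]; simp
  · rw [hw]
    intro z hz
    simp only [List.mem_cons, List.not_mem_nil, or_false] at hz
    rcases hz with rfl | rfl <;> exact hao

theorem pow_mul_mem {S : Subsemigroup (FreeGroup (Fin r))} (g h : FreeGroup (Fin r)) (hg : g ∈ S)
    (hh : h ∈ S) (n : ℕ) : g ^ n * h ∈ S := by
  induction n with
  | zero => simpa using hh
  | succ n ih =>
    rw [pow_succ', mul_assoc]
    exact S.mul_mem hg ih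

/-- Signed powers of `a y a`. -/
theorem signed_pow (y z : FreeGroup (Fin r)) (e : ℤ) (he : e ≠ 0) : ∃ (b : Bool) (n : ℕ),
    (z * y * z) ^ e = z ^ sg b * (y ^ sg b * (z ^ sg b * z ^ sg b)) ^ n *
      (y ^ sg b) * z ^ sg b := by
  have hpos : ∀ (y z : FreeGroup (Fin r)) (n : ℕ), (z * y * z) ^ (n + 1) =
      z * (y * (z * z)) ^ n * y * z := by
    intro y z n
    induction n with
    | zero => simp
    | succ n ih =>
      rw [pow_succ' (z * y * z), ih, pow_succ' (y * (z * z))]
      simp only [mul_assoc]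
  rcases Int.lt_or_gt_of_ne he with h | h
  · obtain ⟨n, hn⟩ : ∃ n : ℕ, e = -((n : ℤ) + 1) := ⟨(-e - 1).toNat, by omega⟩
    refine ⟨false, n, ?_⟩
    have h1 := hpos y⁻¹ z⁻¹ n
    have h2 : (z * y * z) ^ e = (z⁻¹ * y⁻¹ * z⁻¹) ^ (n + 1) := by
      rw [hn, zpow_neg, ← inv_zpow]
      have : (z * y * z)⁻¹ = z⁻¹ * y⁻¹ * z⁻¹ := by group
      rw [this]
      exact_mod_cast rfl
    rw [h2, h1]
    simp [sg]
  · obtain ⟨n, hn⟩ : ∃ n : ℕ, e = (n : ℤ) + 1 := ⟨(e - 1).toNat, by omega⟩
    refine ⟨true, n, ?_⟩
    have h2 : (z * y * z) ^ e = (z * y * z) ^ (n + 1) := by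
      rw [hn]
      exact_mod_cast rfl
    rw [h2, hpos]
    simp [sg]

/-- The automorphism `y ↦ a y a`. -/
def sigmaHom : FreeGroup (Fin r) →* FreeGroup (Fin r) :=
  FreeGroup.lift (fun j => if j = o then FreeGroup.of a * FreeGroup.of o * FreeGroup.of a
    else FreeGroup.of j)

def sigmaInv : FreeGroup (Fin r) →* FreeGroup (Fin r) :=
  FreeGroup.lift (fun j => if j = o then
    (FreeGroup.of a)⁻¹ * FreeGroup.of o * (FreeGroup.of a)⁻¹ else FreeGroup.of j)

theorem sigmaHom_o : sigmaHom o a (FreeGroup.of o) =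
    FreeGroup.of a * FreeGroup.of o * FreeGroup.of a := by
  simp [sigmaHom]

theorem sigmaHom_ne (j : Fin r) (hj : j ≠ o) : sigmaHom o a (FreeGroup.of j) = FreeGroup.of j := by
  simp [sigmaHom, hj]

def sigma (hao : a ≠ o) : FreeGroup (Fin r) ≃* FreeGroup (Fin r) :=
  MonoidHom.toMulEquiv (sigmaHom o a) (sigmaInv o a)
    (by
      apply FreeGroup.ext_hom
      intro j
      by_cases hj : j = o
      · subst hj
        simp [sigmaHom, sigmaInv, hao]
        group
      · simp [sigmaHom, sigmaInv, hj])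
    (by
      apply FreeGroup.ext_hom
      intro j
      by_cases hj : j = o
      · subst hj
        simp [sigmaHom, sigmaInv, hao]
        group
      · simp [sigmaHom, sigmaInv, hj])

/-- The automorphism `x_j ↦ y^{p j} x_j y^{q j}`. -/
def tauHom (p q : Fin r → ℤ) : FreeGroup (Fin r) →* FreeGroup (Fin r) :=
  FreeGroup.lift (fun j => if j = o then FreeGroup.of o
    else FreeGroup.of o ^ p j * FreeGroup.of j * FreeGroup.of o ^ q j)

theorem tauHom_o (p q : Fin r → ℤ) : tauHom o p q (FreeGroup.of o) = FreeGroup.of o := by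
  simp [tauHom]

theorem tauHom_ne (p q : Fin r → ℤ) (j : Fin r) (hj : j ≠ o) : tauHom o p q (FreeGroup.of j) =
    FreeGroup.of o ^ p j * FreeGroup.of j * FreeGroup.of o ^ q j := by
  simp [tauHom, hj]

theorem tau_comp (p q p' q' : Fin r → ℤ) (hp : ∀ j, p j + p' j = 0) (hq : ∀ j, q j + q' j = 0) :
    (tauHom o p q).comp (tauHom o p' q') = MonoidHom.id _ := by
  apply FreeGroup.ext_hom
  intro j
  by_cases hj : j = o
  · subst hj
    rw [MonoidHom.comp_apply, tauHom_o, tauHom_o]; rfl
  · rw [MonoidHom.comp_apply, tauHom_ne _ _ _ _ hj, _root_.map_mul, _root_.map_mul,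
      _root_.map_zpow, _root_.map_zpow, tauHom_o, tauHom_ne _ _ _ _ hj, MonoidHom.id_apply]
    have e1 : p' j = - p j := by have := hp j; omega
    have e2 : q' j = - q j := by have := hq j; omega
    rw [e1, e2]
    group

def tau (p q : Fin r → ℤ) : FreeGroup (Fin r) ≃* FreeGroup (Fin r) :=
  MonoidHom.toMulEquiv (tauHom o p q) (tauHom o (fun j => - p j) (fun j => - q j))
    (tau_comp o _ _ _ _ (fun j => by simp) (fun j => by simp))
    (tau_comp o _ _ _ _ (fun j => by simp) (fun j => by simp))

/-- The product of blocks `y^e x`. -/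
def BP : List (ℤ × (Fin r × Bool)) → FreeGroup (Fin r)
  | [] => 1
  | (e, x) :: B => FreeGroup.of o ^ e * mk [x] * BP B

/-- The image of a product of blocks with nonzero exponents is conjugate into `M`. -/
theorem BP_mem (hao : a ≠ o) : ∀ (B : List (ℤ × (Fin r × Bool))), B ≠ [] →
    (∀ q ∈ B, q.1 ≠ 0 ∧ q.2.1 ≠ o) → ∃ b : Bool, ∀ c : Bool,
    (FreeGroup.of a ^ sg b)⁻¹ * sigma o a hao (BP o B) * FreeGroup.of a ^ sg c ∈ M o := by
  intro B
  induction B with
  | nil => intro h; exact absurd rfl h
  | cons q B ih =>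
    obtain ⟨e, x⟩ := q
    intro _ hB
    obtain ⟨he, hx⟩ := hB (e, x) List.mem_cons_self
    simp only at he hx
    obtain ⟨b, n, hb⟩ := signed_pow (FreeGroup.of o) (FreeGroup.of a) e he
    have hsx : sigma o a hao (mk [x]) = mk [x] := by
      obtain ⟨j, s⟩ := x
      rw [mk_letter, _root_.map_zpow]
      congr 1
      exact sigmaHom_ne o a j hx
    have hsy : sigma o a hao (FreeGroup.of o ^ e) =
        (FreeGroup.of a * FreeGroup.of o * FreeGroup.of a) ^ e := by
      rw [_root_.map_zpow]
      congr 1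
      exact sigmaHom_o o a
    refine ⟨b, fun c => ?_⟩
    have key : ∀ (c' : Bool) (g : FreeGroup (Fin r)),
        (FreeGroup.of a ^ sg b)⁻¹ * sigma o a hao (FreeGroup.of o ^ e * mk [x] * g) =
        (FreeGroup.of o ^ sg b * (FreeGroup.of a ^ sg b * FreeGroup.of a ^ sg b)) ^ n *
        (FreeGroup.of o ^ sg b * (FreeGroup.of a ^ sg b * mk [x] * FreeGroup.of a ^ sg c')) *
        ((FreeGroup.of a ^ sg c')⁻¹ * sigma o a hao g) := by
      intro c' g
      rw [_root_.map_mul, _root_.map_mul, hsx, hsy, hb]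
      group
    by_cases hBn : B = []
    · subst hBn
      show (FreeGroup.of a ^ sg b)⁻¹ * sigma o a hao (FreeGroup.of o ^ e * mk [x] * 1) *
        FreeGroup.of a ^ sg c ∈ M o
      rw [key c 1, _root_.map_one, mul_one, mul_assoc, inv_mul_cancel, mul_one]
      exact pow_mul_mem _ _ (run_mem o a hao b) (block_mem o a hao x hx b c) n
    · obtain ⟨b', hb'⟩ := ih hBn (fun q hq => hB q (List.mem_cons_of_mem _ hq))
      show (FreeGroup.of a ^ sg b)⁻¹ * sigma o a hao (FreeGroup.of o ^ e * mk [x] * BP o B) *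
        FreeGroup.of a ^ sg c ∈ M o
      rw [key b' (BP o B), mul_assoc]
      exact (M o).mul_mem (pow_mul_mem _ _ (run_mem o a hao b) (block_mem o a hao x hx b b') n)
        (hb' c)

/-- The exponent of `y` on the left of the image of a letter. -/
def Lf (p q : Fin r → ℤ) (x : Fin r × Bool) : ℤ := if x.2 then p x.1 else - q x.1

/-- The exponent of `y` on the right of the image of a letter. -/
def Rt (p q : Fin r → ℤ) (x : Fin r × Bool) : ℤ := if x.2 then q x.1 else - p x.1

theorem tau_letter (p q : Fin r → ℤ) (x : Fin r × Bool) (hx : x.1 ≠ o) :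
    tau o p q (mk [x]) = FreeGroup.of o ^ Lf p q x * mk [x] * FreeGroup.of o ^ Rt p q x := by
  obtain ⟨j, b⟩ := x
  simp only at hx
  have h : tau o p q (FreeGroup.of j) =
    FreeGroup.of o ^ p j * FreeGroup.of j * FreeGroup.of o ^ q j := tauHom_ne o p q j hx
  rw [mk_letter, _root_.map_zpow, h]
  cases b
  · simp only [sg, Lf, Rt, Bool.false_eq_true, if_false]
    group
  · simp only [sg, Lf, Rt, if_true, zpow_one]

/-- Reading a word from the left, with a carried exponent. -/
def run (p q : Fin r → ℤ) : ℤ → List (Fin r × Bool) → List (ℤ × (Fin r × Bool)) × ℤ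
  | c, [] => ([], c)
  | c, z :: L => if z.1 = o then run p q (c + sg z.2) L
      else ((c + Lf p q z, z) :: (run p q (Rt p q z) L).1, (run p q (Rt p q z) L).2)

theorem run_o (p q : Fin r → ℤ) (c : ℤ) (z : Fin r × Bool) (L : List (Fin r × Bool))
    (hz : z.1 = o) : run o p q c (z :: L) = run o p q (c + sg z.2) L := by
  rw [run, if_pos hz]

theorem run_ne (p q : Fin r → ℤ) (c : ℤ) (z : Fin r × Bool) (L : List (Fin r × Bool))
    (hz : z.1 ≠ o) : run o p q c (z :: L) =
      ((c + Lf p q z, z) :: (run o p q (Rt p q z) L).1, (run o p q (Rt p q z) L).2) := by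
  rw [run, if_neg hz]

theorem run_spec (p q : Fin r → ℤ) : ∀ (L : List (Fin r × Bool)) (c : ℤ),
    FreeGroup.of o ^ c * tau o p q (mk L) =
      BP o (run o p q c L).1 * FreeGroup.of o ^ (run o p q c L).2 := by
  intro L
  induction L with
  | nil =>
    intro c
    rw [← one_eq_mk, _root_.map_one]
    simp [run, BP]
  | cons z L ih =>
    intro c
    by_cases hz : z.1 = o
    · rw [run_o o p q c z L hz, ← ih, mk_cons', _root_.map_mul]
      have h : tau o p q (mk [z]) = FreeGroup.of o ^ sg z.2 := by
        obtain ⟨j, b⟩ := z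
        simp only at hz
        subst hz
        rw [mk_letter, _root_.map_zpow]
        congr 1
        exact tauHom_o j p q
      rw [h, zpow_add]
      group
    · rw [run_ne o p q c z L hz, mk_cons', _root_.map_mul, tau_letter o p q z hz]
      have := ih (Rt p q z)
      simp only [BP]
      rw [mul_assoc (FreeGroup.of o ^ (c + Lf p q z) * mk [z]), ← this, zpow_add]
      group

theorem run_nonzero (p q : Fin r → ℤ) (N : ℤ)
    (hN : ∀ x x' : Fin r × Bool, ¬ (x'.1 = x.1 ∧ x'.2 = !x.2) → N < |Rt p q x + Lf p q x'|) :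
    ∀ (L : List (Fin r × Bool)) (x : Fin r × Bool) (k : ℤ), |k| + L.length ≤ N →
      ((k = 0 ∧ IsReduced (x :: L)) ∨ (k ≠ 0 ∧ IsReduced ((o, decide (0 < k)) :: L))) →
      ∀ b ∈ (run o p q (Rt p q x + k) L).1, b.1 ≠ 0 ∧ b.2.1 ≠ o := by
  intro L
  induction L with
  | nil => intro x k _ _ b hb; simp [run] at hb
  | cons z L ih =>
    intro x k hk hred b hb
    have hlen : ((z :: L).length : ℤ) = L.length + 1 := by push_cast [List.length_cons]; rfl
    rw [hlen] at hk
    by_cases hz : z.1 = o
    · rw [run_o o p q _ z L hz, add_assoc] at hb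
      have hsg : |sg z.2| = 1 := by cases z.2 <;> simp [sg]
      refine ih x (k + sg z.2) ?_ ?_ b hb
      · have := abs_add_le k (sg z.2)
        rw [hsg] at this
        omega
      · right
        rcases hred with ⟨hk0, hred⟩ | ⟨hk0, hred⟩
        · have h1 : IsReduced (z :: L) := by
            rw [isReduced_cons_cons] at hred; exact hred.2
          subst hk0
          refine ⟨by cases z.2 <;> simp [sg], ?_⟩
          have h2 : (o, decide (0 < 0 + sg z.2)) = z := by
            apply Prod.ext
            · exact hz.symm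
            · show decide (0 < 0 + sg z.2) = z.2
              cases z.2 <;> simp [sg]
          rw [h2]; exact h1
        · rw [isReduced_cons_cons] at hred
          have h3 : decide (0 < k) = z.2 := hred.1 hz.symm
          have h4 : 0 < k ∧ sg z.2 = 1 ∨ k < 0 ∧ sg z.2 = -1 := by
            rcases lt_or_gt_of_ne hk0 with h | h
            · right
              refine ⟨h, ?_⟩
              rw [← h3, decide_eq_false (by omega)]
              simp [sg]
            · left
              refine ⟨h, ?_⟩
              rw [← h3, decide_eq_true h]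
              simp [sg]
          refine ⟨by omega, ?_⟩
          have h2 : (o, decide (0 < k + sg z.2)) = z := by
            apply Prod.ext
            · exact hz.symm
            · show decide (0 < k + sg z.2) = z.2
              rcases h4 with h | h
              · rw [h.2, ← h3, decide_eq_true h.1, decide_eq_true (by omega)]
              · rw [h.2, ← h3, decide_eq_false (by omega), decide_eq_false (by omega)]
          rw [h2]; exact hred.2
    · rw [run_ne o p q _ z L hz, List.mem_cons] at hb
      rcases hb with rfl | hb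
      · refine ⟨?_, hz⟩
        simp only
        by_cases hinv : z.1 = x.1 ∧ z.2 = !x.2
        · have h0 : Rt p q x + Lf p q z = 0 := by
            obtain ⟨j, c⟩ := x
            obtain ⟨j', c'⟩ := z
            simp only at hinv
            obtain ⟨rfl, rfl⟩ := hinv
            cases c <;> simp [Rt, Lf]
          have hk0 : k ≠ 0 := by
            rcases hred with ⟨hk0, hred⟩ | ⟨hk0, hred⟩
            · exfalso
              rw [isReduced_cons_cons] at hred
              have := hred.1 hinv.1.symm
              rw [hinv.2] at this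
              cases hx : x.2 <;> simp [hx] at this
            · exact hk0
          omega
        · have h1 := hN x z hinv
          intro h2
          have h3 : Rt p q x + Lf p q z = -k := by omega
          rw [h3, abs_neg] at h1
          have : (0 : ℤ) ≤ L.length := by positivity
          omega
      · have e : Rt p q z = Rt p q z + 0 := by ring
        rw [e] at hb
        refine ih z 0 ?_ ?_ b hb
        · have := abs_nonneg k
          simp only [abs_zero]
          omega
        · left
          refine ⟨rfl, ?_⟩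
          rcases hred with ⟨hk0, hred⟩ | ⟨hk0, hred⟩ <;>
          · rw [isReduced_cons_cons] at hred; exact hred.2

theorem run_last (p q : Fin r → ℤ) (x : Fin r × Bool) (hx : x.1 ≠ o) :
    ∀ (L : List (Fin r × Bool)) (c : ℤ), (run o p q c (L ++ [x])).2 = Rt p q x ∧
      (run o p q c (L ++ [x])).1 ≠ [] := by
  intro L
  induction L with
  | nil =>
    intro c
    rw [List.nil_append, run_ne o p q c x [] hx]
    simp [run]
  | cons z L ih =>
    intro c
    rw [List.cons_append]
    by_cases hz : z.1 = o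
    · rw [run_o o p q c z _ hz]
      exact ih _
    · rw [run_ne o p q c z _ hz]
      refine ⟨(ih _).1, by simp⟩

/-- `w` is in the automorphic closure of `M`. -/
def AutM (w : FreeGroup (Fin r)) : Prop :=
  ∃ φ : FreeGroup (Fin r) ≃* FreeGroup (Fin r), φ w ∈ M o

theorem autM_map (ψ : FreeGroup (Fin r) ≃* FreeGroup (Fin r)) (w : FreeGroup (Fin r))
    (h : AutM o (ψ w)) : AutM o w := by
  obtain ⟨φ, hφ⟩ := h
  exact ⟨ψ.trans φ, hφ⟩

theorem autM_conj (g w : FreeGroup (Fin r)) (h : AutM o (g⁻¹ * w * g)) : AutM o w := by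
  apply autM_map o (MulAut.conj g⁻¹ : FreeGroup (Fin r) ≃* FreeGroup (Fin r)) w
  rw [MulAut.conj_apply, inv_inv]
  exact h

theorem autM_of_mem (w : FreeGroup (Fin r)) (h : w ∈ M o) : AutM o w :=
  ⟨MulEquiv.refl _, h⟩

/-- Every nontrivial element is in the automorphic closure of `M`. -/
theorem autM_of_ne_one (hao : a ≠ o) (w : FreeGroup (Fin r)) (hw : w ≠ 1) : AutM o w := by
  have h0 := reduceCyclically.conj_conjugator_reduceCyclically w.toWord
  have hC := reduceCyclically.isCyclicallyReduced (isReduced_toWord (x := w))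
  obtain ⟨C, hCe⟩ : ∃ C, C = reduceCyclically w.toWord := ⟨_, rfl⟩
  obtain ⟨G, hGe⟩ : ∃ G, G = reduceCyclically.conjugator w.toWord := ⟨_, rfl⟩
  rw [← hCe] at h0 hC
  rw [← hGe] at h0
  have hwC : (mk G)⁻¹ * w * mk G = mk C := by
    rw [← mk_toWord (x := w), ← h0, ← mul_mk, ← mul_mk, ← inv_mk]
    group
  apply autM_conj o (mk G)
  rw [hwC]
  have hC1 : mk C ≠ 1 := by
    intro h
    apply hw
    have : w = mk G * (mk C) * (mk G)⁻¹ := by rw [← hwC]; group
    rw [this, h]; group
  have hCC : IsReduced (C ++ C) := by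
    have := (hC.flatten_replicate 2).isReduced
    simpa [List.replicate] using this
  by_cases hall : ∀ x ∈ C, x.1 = o
  · -- a power of `y`
    have hpow : ∀ L : List (Fin r × Bool), (∀ x ∈ L, x.1 = o) →
        ∃ k : ℤ, mk L = FreeGroup.of o ^ k := by
      intro L
      induction L with
      | nil => intro _; exact ⟨0, by simp [one_eq_mk]⟩
      | cons x L ih =>
        intro hL
        obtain ⟨k, hk⟩ := ih (fun y hy => hL y (List.mem_cons_of_mem _ hy))
        obtain ⟨j, b⟩ := x
        have hj : j = o := hL (j, b) List.mem_cons_self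
        subst hj
        exact ⟨sg b + k, by rw [mk_cons', mk_letter, hk, zpow_add]⟩
    obtain ⟨k, hk⟩ := hpow C hall
    have hk0 : k ≠ 0 := by
      rintro rfl
      exact hC1 (by rw [hk, zpow_zero])
    apply autM_map o (sigma o a hao)
    have hsy : sigma o a hao (mk C) =
        (FreeGroup.of a * FreeGroup.of o * FreeGroup.of a) ^ k := by
      rw [hk, _root_.map_zpow]
      congr 1
      exact sigmaHom_o o a
    obtain ⟨b, n, hb⟩ := signed_pow (FreeGroup.of o) (FreeGroup.of a) k hk0
    rw [hsy, hb]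
    apply autM_conj o (FreeGroup.of a ^ sg b)
    apply autM_of_mem
    have e : (FreeGroup.of a ^ sg b)⁻¹ * (FreeGroup.of a ^ sg b *
        (FreeGroup.of o ^ sg b * (FreeGroup.of a ^ sg b * FreeGroup.of a ^ sg b)) ^ n *
        FreeGroup.of o ^ sg b * FreeGroup.of a ^ sg b) * FreeGroup.of a ^ sg b =
        (FreeGroup.of o ^ sg b * (FreeGroup.of a ^ sg b * FreeGroup.of a ^ sg b)) ^ n *
        (FreeGroup.of o ^ sg b * (FreeGroup.of a ^ sg b * FreeGroup.of a ^ sg b)) := by
      simp only [mul_assoc, inv_mul_cancel_left]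
    rw [e]
    exact pow_mul_mem _ _ (run_mem o a hao b) (run_mem o a hao b) n
  · push Not at hall
    obtain ⟨x, hxC, hx⟩ := hall
    obtain ⟨C1, C2, hC12⟩ := List.append_of_mem hxC
    obtain ⟨K, hK⟩ : ∃ K, K = C2 ++ C1 := ⟨_, rfl⟩
    have hred : IsReduced (x :: (K ++ [x])) := by
      have e : C1 ++ (x :: (K ++ [x])) ++ C2 = C ++ C := by
        rw [hC12, hK]; simp
      rw [← e] at hCC
      exact List.IsChain.right_of_append (List.IsChain.left_of_append hCC)
    apply autM_conj o (mk (C1 ++ [x]))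
    have e1 : (mk (C1 ++ [x]))⁻¹ * mk C * mk (C1 ++ [x]) = mk (K ++ [x]) := by
      have e2 : mk C = mk (C1 ++ [x]) * mk C2 := by rw [hC12, mul_mk]; simp
      rw [e2, hK]
      have e3 : mk (C2 ++ C1 ++ [x]) = mk C2 * mk (C1 ++ [x]) := by rw [mul_mk]; simp
      rw [e3]; group
    rw [e1]
    obtain ⟨N, hN⟩ : ∃ N : ℤ, N = (K ++ [x]).length := ⟨_, rfl⟩
    have hN0 : 0 ≤ N := by rw [hN]; positivity
    obtain ⟨p, hp⟩ : ∃ p : Fin r → ℤ, p = fun j => (2 * (j.val : ℤ) + 1) * (N + 1) := ⟨_, rfl⟩
    obtain ⟨q, hq⟩ : ∃ q : Fin r → ℤ, q = fun j => (2 * (j.val : ℤ) + 2) * (N + 1) := ⟨_, rfl⟩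
    have hsep : ∀ z z' : Fin r × Bool, ¬ (z'.1 = z.1 ∧ z'.2 = !z.2) →
        N < |Rt p q z + Lf p q z'| := by
      rintro ⟨j, b⟩ ⟨j', b'⟩ hzz
      simp only at hzz
      have key : ∀ m : ℤ, m ≠ 0 → N < |m * (N + 1)| := by
        intro m hm
        rw [abs_mul, abs_of_nonneg (by omega : 0 ≤ N + 1)]
        have h1 : 1 ≤ |m| := Int.one_le_abs hm
        nlinarith
      cases b <;> cases b' <;> simp only [Rt, Lf, hp, hq, Bool.false_eq_true, if_false, if_true]
      · have := key (-(2 * (j.val : ℤ) + 1) - (2 * (j'.val : ℤ) + 2)) (by omega)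
        convert this using 2
        ring
      · have hne : (j'.val : ℤ) ≠ j.val := by
          intro h
          apply hzz
          refine ⟨Fin.ext (by exact_mod_cast h), by simp⟩
        have := key (-(2 * (j.val : ℤ) + 1) + (2 * (j'.val : ℤ) + 1)) (by omega)
        convert this using 2
        ring
      · have hne : (j'.val : ℤ) ≠ j.val := by
          intro h
          apply hzz
          refine ⟨Fin.ext (by exact_mod_cast h), by simp⟩
        have := key ((2 * (j.val : ℤ) + 2) - (2 * (j'.val : ℤ) + 2)) (by omega)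
        convert this using 2
        ring
      · have := key ((2 * (j.val : ℤ) + 2) + (2 * (j'.val : ℤ) + 1)) (by omega)
        convert this using 2
        ring
    obtain ⟨B, hB⟩ : ∃ B, B = (run o p q (Rt p q x) (K ++ [x])).1 := ⟨_, rfl⟩
    have hspec := run_spec o p q (K ++ [x]) (Rt p q x)
    rw [(run_last o p q x hx K _).1, ← hB] at hspec
    have hBne : B ≠ [] := by rw [hB]; exact (run_last o p q x hx K _).2
    have hBnz : ∀ b ∈ B, b.1 ≠ 0 ∧ b.2.1 ≠ o := by
      intro b hb
      have e : Rt p q x = Rt p q x + 0 := by ring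
      rw [hB, e] at hb
      exact run_nonzero o p q N hsep (K ++ [x]) x 0 (by rw [hN]; simp) (Or.inl ⟨rfl, hred⟩) b hb
    apply autM_map o (tau o p q)
    apply autM_conj o (FreeGroup.of o ^ Rt p q x)⁻¹
    have e4 : ((FreeGroup.of o ^ Rt p q x)⁻¹)⁻¹ * tau o p q (mk (K ++ [x])) *
        (FreeGroup.of o ^ Rt p q x)⁻¹ = BP o B := by
      rw [inv_inv, hspec, mul_assoc, mul_inv_cancel, mul_one]
    rw [e4]
    apply autM_map o (sigma o a hao)
    obtain ⟨b, hb⟩ := BP_mem o a hao B hBne hBnz
    exact autM_conj o (FreeGroup.of a ^ sg b) _ (autM_of_mem o _ (hb b))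

end alg

section count

variable {α : Type} [Fintype α] [DecidableEq α] (R : α → α → Prop) [DecidableRel R]

/-- The lists of length `n` which can follow the letter `x`. -/
def lst : ℕ → α → Finset (List α)
  | 0, _ => {[]}
  | n + 1, x => (Finset.univ.filter (fun y => R x y)).biUnion
      (fun y => (lst n y).image (List.cons y))

theorem mem_lst (n : ℕ) : ∀ (x : α) (l : List α),
    l ∈ lst R n x ↔ l.length = n ∧ List.IsChain R (x :: l) := by
  induction n with
  | zero =>
    intro x l
    simp only [lst, Finset.mem_singleton]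
    constructor
    · rintro rfl; simp
    · rintro ⟨h, -⟩; exact List.length_eq_zero_iff.mp h
  | succ n ih =>
    intro x l
    simp only [lst, Finset.mem_biUnion, Finset.mem_filter, Finset.mem_univ, true_and,
      Finset.mem_image]
    constructor
    · rintro ⟨y, hxy, l', hl', rfl⟩
      rw [ih] at hl'
      refine ⟨by simp [hl'.1], ?_⟩
      rw [List.isChain_cons_cons]
      exact ⟨hxy, hl'.2⟩
    · rintro ⟨h1, h2⟩
      cases l with
      | nil => simp at h1
      | cons y l' =>
        rw [List.isChain_cons_cons] at h2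
        refine ⟨y, h2.1, l', ?_, rfl⟩
        rw [ih]
        exact ⟨by simpa using h1, h2.2⟩

theorem card_lst_succ (n : ℕ) (x : α) : (lst R (n + 1) x).card =
    ∑ y ∈ Finset.univ.filter (fun y => R x y), (lst R n y).card := by
  rw [lst, Finset.card_biUnion]
  · apply Finset.sum_congr rfl
    intro y _
    rw [Finset.card_image_of_injective]
    intro a b h
    exact (List.cons.inj h).2
  · intro y _ z _ hyz
    rw [Function.onFun, Finset.disjoint_left]
    intro l hl hl'
    rw [Finset.mem_image] at hl hl'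
    obtain ⟨l1, -, rfl⟩ := hl
    obtain ⟨l2, -, h⟩ := hl'
    exact hyz (List.cons.inj h).1.symm

end count

section density

variable {r : ℕ} (o : Fin r)

instance : DecidableRel (Rel o) := fun x y => by unfold Rel; infer_instance

theorem card_red (x : Fin r × Bool) :
    (Finset.univ.filter (fun y : Fin r × Bool => x.1 = y.1 → x.2 = y.2)).card = 2 * r - 1 := by
  have h : (Finset.univ.filter (fun y : Fin r × Bool => x.1 = y.1 → x.2 = y.2)) =
      Finset.univ.erase (x.1, !x.2) := by
    ext y
    simp only [Finset.mem_filter, Finset.mem_univ, true_and, Finset.mem_erase, and_true]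
    constructor
    · rintro h rfl
      have := h rfl
      simp at this
    · intro h h1
      by_contra h2
      apply h
      apply Prod.ext
      · exact h1.symm
      · show y.2 = !x.2
        cases hx : x.2 <;> cases hy : y.2 <;> simp_all
  rw [h, Finset.card_erase_of_mem (Finset.mem_univ _), Finset.card_univ, Fintype.card_prod,
    Fintype.card_fin, Fintype.card_bool]
  omega

theorem card_lst_red (n : ℕ) (x : Fin r × Bool) :
    (lst (fun x y : Fin r × Bool => x.1 = y.1 → x.2 = y.2) n x).card = (2 * r - 1) ^ n := by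
  induction n generalizing x with
  | zero => simp [lst]
  | succ n ih =>
    rw [card_lst_succ]
    simp only [ih, Finset.sum_const, smul_eq_mul]
    rw [card_red, pow_succ']

theorem card_rel_le (x : Fin r × Bool) :
    (Finset.univ.filter (fun y : Fin r × Bool => Rel o x y)).card ≤ 2 * r - 1 := by
  rw [← card_red x]
  apply Finset.card_le_card
  intro y hy
  rw [Finset.mem_filter] at hy ⊢
  exact ⟨hy.1, hy.2.1⟩

theorem card_rel_o (x : Fin r × Bool) (hx : x.1 = o) :
    (Finset.univ.filter (fun y : Fin r × Bool => Rel o x y)).card ≤ 2 * r - 2 := by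
  have h : (Finset.univ.filter (fun y : Fin r × Bool => Rel o x y)) ⊆
      (Finset.univ.erase (o, true)).erase (o, false) := by
    intro y hy
    rw [Finset.mem_filter] at hy
    simp only [Finset.mem_erase, Finset.mem_univ, and_true]
    constructor <;>
    · rintro rfl
      exact hy.2.2 ⟨hx, rfl⟩
  refine (Finset.card_le_card h).trans ?_
  rw [Finset.card_erase_of_mem (by simp), Finset.card_erase_of_mem (Finset.mem_univ _),
    Finset.card_univ, Fintype.card_prod, Fintype.card_fin, Fintype.card_bool]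
  omega

theorem two_step (hr : 2 ≤ r) (n B : ℕ) (hB : ∀ z, (lst (Rel o) n z).card ≤ B)
    (x : Fin r × Bool) : (lst (Rel o) (n + 2) x).card ≤ (2 * r - 2) * (2 * r) * B := by
  have h1 : (lst (Rel o) (n + 2) x).card ≤
      ∑ y ∈ Finset.univ.filter (fun y => Rel o x y),
        (Finset.univ.filter (fun z => Rel o y z)).card * B := by
    rw [card_lst_succ]
    apply Finset.sum_le_sum
    intro y _
    rw [card_lst_succ]
    refine (Finset.sum_le_sum (fun z _ => hB z)).trans ?_
    simp
  refine h1.trans ?_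
  rw [← Finset.sum_mul]
  apply Nat.mul_le_mul_right
  by_cases hx : x.1 = o
  · calc ∑ y ∈ Finset.univ.filter (fun y => Rel o x y),
        (Finset.univ.filter (fun z => Rel o y z)).card
        ≤ ∑ y ∈ Finset.univ.filter (fun y => Rel o x y), (2 * r - 1) :=
          Finset.sum_le_sum (fun y _ => card_rel_le o y)
      _ = (Finset.univ.filter (fun y => Rel o x y)).card * (2 * r - 1) := by simp
      _ ≤ (2 * r - 2) * (2 * r - 1) := Nat.mul_le_mul_right _ (card_rel_o o x hx)
      _ ≤ (2 * r - 2) * (2 * r) := Nat.mul_le_mul_left _ (by omega)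
  · obtain ⟨S, hS⟩ : ∃ S, S = (Finset.univ : Finset (Fin r × Bool)).erase (x.1, !x.2) := ⟨_, rfl⟩
    have hSc : S.card = 2 * r - 1 := by
      rw [hS, Finset.card_erase_of_mem (Finset.mem_univ _), Finset.card_univ, Fintype.card_prod,
        Fintype.card_fin, Fintype.card_bool]
      omega
    have hsub : Finset.univ.filter (fun y => Rel o x y) ⊆ S := by
      intro y hy
      rw [Finset.mem_filter] at hy
      rw [hS, Finset.mem_erase]
      refine ⟨?_, Finset.mem_univ _⟩
      rintro rfl
      have := hy.2.1 rfl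
      simp at this
    have hoS : (o, true) ∈ S := by
      rw [hS, Finset.mem_erase]
      refine ⟨fun h => hx ?_, Finset.mem_univ _⟩
      exact (congrArg Prod.fst h).symm
    calc ∑ y ∈ Finset.univ.filter (fun y => Rel o x y),
        (Finset.univ.filter (fun z => Rel o y z)).card
        ≤ ∑ y ∈ S, (Finset.univ.filter (fun z => Rel o y z)).card :=
          Finset.sum_le_sum_of_subset hsub
      _ = (Finset.univ.filter (fun z => Rel o (o, true) z)).card +
          ∑ y ∈ S.erase (o, true), (Finset.univ.filter (fun z => Rel o y z)).card :=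
          (Finset.add_sum_erase S _ hoS).symm
      _ ≤ (2 * r - 2) + ∑ y ∈ S.erase (o, true), (2 * r - 1) :=
          Nat.add_le_add (card_rel_o o _ rfl) (Finset.sum_le_sum (fun y _ => card_rel_le o y))
      _ = (2 * r - 2) + (2 * r - 2) * (2 * r - 1) := by
          rw [Finset.sum_const, Finset.card_erase_of_mem hoS, hSc, smul_eq_mul]
          rfl
      _ = (2 * r - 2) * (2 * r) := by
          obtain ⟨t, ht⟩ : ∃ t, 2 * r = t + 2 := ⟨2 * r - 2, by omega⟩
          rw [ht]
          have e1 : t + 2 - 2 = t := by omega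
          have e2 : t + 2 - 1 = t + 1 := by omega
          rw [e1, e2]; ring

theorem card_lst_le (hr : 2 ≤ r) : ∀ (n : ℕ) (x : Fin r × Bool),
    (lst (Rel o) n x).card ≤ (2 * r - 1) * ((2 * r - 2) * (2 * r)) ^ (n / 2)
  | 0, x => by
    simp only [lst, Finset.card_singleton]
    have : 1 ≤ 2 * r - 1 := by omega
    simpa using this
  | 1, x => by
    rw [card_lst_succ]
    simp only [lst, Finset.card_singleton, Finset.sum_const, smul_eq_mul, mul_one]
    simpa using card_rel_le o x
  | n + 2, x => by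
    have h := two_step o hr n _ (card_lst_le hr n) x
    have e : (n + 2) / 2 = n / 2 + 1 := by omega
    rw [e, pow_succ]
    refine h.trans (le_of_eq ?_)
    ring

/-- The ball of radius `n`. -/
def ball (r n : ℕ) : Set (FreeGroup (Fin r)) := {w | w.norm ≤ n}

theorem ball_lower (hr : 2 ≤ r) (n : ℕ) : (2 * r - 1) ^ n ≤ (ball r n).ncard := by
  have x : Fin r × Bool := (⟨0, by omega⟩, true)
  rw [← card_lst_red n x, ← Set.ncard_coe_finset]
  refine Set.ncard_le_ncard_of_injOn (fun l => mk l) ?_ ?_ (ball_finite n)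
  · intro l hl
    rw [Finset.mem_coe, mem_lst] at hl
    show (mk l).norm ≤ n
    exact norm_mk_le.trans hl.1.le
  · intro l hl l' hl' h
    rw [Finset.mem_coe, mem_lst] at hl hl'
    have h1 : IsReduced l := by
      have : IsReduced ([x] ++ l) := hl.2
      exact List.IsChain.right_of_append this
    have h2 : IsReduced l' := by
      have : IsReduced ([x] ++ l') := hl'.2
      exact List.IsChain.right_of_append this
    have h3 := congrArg toWord h
    simp only [toWord_mk] at h3
    rwa [h1.reduce_eq, h2.reduce_eq] at h3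

theorem M_upper (hr : 2 ≤ r) (n : ℕ) : ((M o : Set (FreeGroup (Fin r))) ∩ ball r n).ncard ≤
    n * (2 * r * ((2 * r - 1) * ((2 * r - 2) * (2 * r)) ^ (n / 2))) := by
  classical
  obtain ⟨T, hT⟩ : ∃ T : Finset (FreeGroup (Fin r)), T = (Finset.range n).biUnion
    (fun k => (Finset.univ : Finset (Fin r × Bool)).biUnion
      (fun x => (lst (Rel o) k x).image (fun l => mk (x :: l)))) := ⟨_, rfl⟩
  have h1 : (M o : Set (FreeGroup (Fin r))) ∩ ball r n ⊆ (T : Set (FreeGroup (Fin r))) := by
    rintro w ⟨hw, hwn⟩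
    obtain ⟨g1, ⟨x, L, g2, g3⟩, -⟩ := good_of_mem o w hw
    have hn : w.norm = L.length + 1 := by rw [FreeGroup.norm, g2]; simp
    have hwn' : w.norm ≤ n := hwn
    rw [hT, Finset.mem_coe, Finset.mem_biUnion]
    refine ⟨L.length, by rw [Finset.mem_range]; omega, ?_⟩
    rw [Finset.mem_biUnion]
    refine ⟨x, Finset.mem_univ _, ?_⟩
    rw [Finset.mem_image]
    refine ⟨L, ?_, by rw [← g2, mk_toWord]⟩
    rw [mem_lst]
    exact ⟨rfl, by rw [← g2]; exact g1⟩
  have h2 : ((M o : Set (FreeGroup (Fin r))) ∩ ball r n).ncard ≤ T.card := by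
    rw [← Set.ncard_coe_finset T]
    exact Set.ncard_le_ncard h1 T.finite_toSet
  refine h2.trans ?_
  rw [hT]
  refine Finset.card_biUnion_le.trans ?_
  have h3 : ∀ k ∈ Finset.range n, ((Finset.univ : Finset (Fin r × Bool)).biUnion
      (fun x => (lst (Rel o) k x).image (fun l => mk (x :: l)))).card ≤
      2 * r * ((2 * r - 1) * ((2 * r - 2) * (2 * r)) ^ (n / 2)) := by
    intro k hk
    rw [Finset.mem_range] at hk
    refine Finset.card_biUnion_le.trans ?_
    have h4 : ∀ x ∈ (Finset.univ : Finset (Fin r × Bool)),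
        ((lst (Rel o) k x).image (fun l => mk (x :: l))).card ≤
        (2 * r - 1) * ((2 * r - 2) * (2 * r)) ^ (n / 2) := by
      intro x _
      refine Finset.card_image_le.trans ((card_lst_le o hr k x).trans ?_)
      apply Nat.mul_le_mul_left
      apply Nat.pow_le_pow_right
      · apply Nat.mul_pos <;> omega
      · omega
    refine (Finset.sum_le_sum h4).trans ?_
    rw [Finset.sum_const, Finset.card_univ, Fintype.card_prod, Fintype.card_fin,
      Fintype.card_bool, smul_eq_mul, mul_comm r 2]
  refine (Finset.sum_le_sum h3).trans ?_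
  rw [Finset.sum_const, Finset.card_range, smul_eq_mul]

/-- The proportion of elements of the ball of radius `n` which lie in `S`. -/
noncomputable def prob (S : Set (FreeGroup (Fin r))) (n : ℕ) : ℝ :=
  ((S ∩ ball r n).ncard : ℝ) / ((ball r n).ncard : ℝ)

/-- The automorphic closure of a set. -/
def autClosure (S : Set (FreeGroup (Fin r))) : Set (FreeGroup (Fin r)) :=
  {w | ∃ (φ : FreeGroup (Fin r) ≃* FreeGroup (Fin r)) (m : FreeGroup (Fin r)), m ∈ S ∧ w = φ m}

open Filter Topology

theorem prob_M (hr : 2 ≤ r) :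
    Tendsto (prob (M o : Set (FreeGroup (Fin r)))) atTop (𝓝 0) := by
  obtain ⟨s, hs⟩ : ∃ s : ℕ, s = 2 * r - 1 := ⟨_, rfl⟩
  obtain ⟨D, hD⟩ : ∃ D : ℕ, D = (2 * r - 2) * (2 * r) := ⟨_, rfl⟩
  have hDs : D + 1 = s ^ 2 := by
    obtain ⟨t, ht⟩ : ∃ t, 2 * r = t + 2 := ⟨2 * r - 2, by omega⟩
    rw [hD, hs, ht]
    have e1 : t + 2 - 2 = t := by omega
    have e2 : t + 2 - 1 = t + 1 := by omega
    rw [e1, e2]; ring
  have hs0 : 0 < s := by omega
  have hs0' : (0 : ℝ) < s := by exact_mod_cast hs0
  obtain ⟨q, hq⟩ : ∃ q : ℝ, q = (D : ℝ) / (s : ℝ) ^ 2 := ⟨_, rfl⟩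
  have hDs' : (D : ℝ) + 1 = (s : ℝ) ^ 2 := by exact_mod_cast hDs
  have hq0 : 0 ≤ q := by rw [hq]; positivity
  have hq1 : q < 1 := by
    rw [hq, div_lt_one (by positivity)]
    linarith
  have hlim : Tendsto (fun k : ℕ => (2 * r * s : ℝ) * (2 * ((k : ℝ) * q ^ k) + q ^ k)) atTop
      (𝓝 ((2 * r * s : ℝ) * (2 * 0 + 0))) :=
    ((((tendsto_self_mul_const_pow_of_lt_one hq0 hq1).const_mul 2).add
      (tendsto_pow_atTop_nhds_zero_of_lt_one hq0 hq1)).const_mul _)
  have hlim2 : Tendsto (fun n : ℕ => (2 * r * s : ℝ) *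
      (2 * (((n / 2 : ℕ) : ℝ) * q ^ (n / 2)) + q ^ (n / 2))) atTop (𝓝 0) := by
    have h := hlim.comp (Nat.tendsto_div_const_atTop (two_ne_zero))
    rw [mul_zero, add_zero, mul_zero] at h
    exact h
  refine squeeze_zero (fun n => by unfold prob; positivity) (fun n => ?_) hlim2
  have h1 := M_upper o hr n
  have h2 := ball_lower hr n
  rw [← hs, ← hD] at h1
  rw [← hs] at h2
  have h2' : ((s : ℝ) ^ 2) ^ (n / 2) ≤ ((ball r n).ncard : ℝ) := by
    have h3 : (s ^ 2) ^ (n / 2) ≤ s ^ n := by
      rw [← pow_mul]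
      exact Nat.pow_le_pow_right hs0 (by omega)
    exact_mod_cast h3.trans h2
  have h1' : (((M o : Set (FreeGroup (Fin r))) ∩ ball r n).ncard : ℝ) ≤
      (n : ℝ) * (2 * r * (s * (D : ℝ) ^ (n / 2))) := by exact_mod_cast h1
  have hn : (n : ℝ) ≤ 2 * ((n / 2 : ℕ) : ℝ) + 1 := by
    have : n ≤ 2 * (n / 2) + 1 := by omega
    exact_mod_cast this
  have hpos : (0 : ℝ) < ((s : ℝ) ^ 2) ^ (n / 2) := by positivity
  unfold prob
  calc (((M o : Set (FreeGroup (Fin r))) ∩ ball r n).ncard : ℝ) / ((ball r n).ncard : ℝ)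
      ≤ ((n : ℝ) * (2 * r * (s * (D : ℝ) ^ (n / 2)))) / ((s : ℝ) ^ 2) ^ (n / 2) := by
        apply div_le_div₀ _ h1' hpos h2'
        positivity
    _ = (2 * r * s : ℝ) * ((n : ℝ) * q ^ (n / 2)) := by
        rw [hq, div_pow]; field_simp
    _ ≤ (2 * r * s : ℝ) * (2 * (((n / 2 : ℕ) : ℝ) * q ^ (n / 2)) + q ^ (n / 2)) := by
        apply mul_le_mul_of_nonneg_left _ (by positivity)
        have : 0 ≤ q ^ (n / 2) := by positivity
        nlinarith

theorem prob_compl_one (hr : 2 ≤ r) :
    Tendsto (prob ({w : FreeGroup (Fin r) | w ≠ 1})) atTop (𝓝 1) := by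
  have h1 : ∀ n, prob ({w : FreeGroup (Fin r) | w ≠ 1}) n =
      1 - 1 / ((ball r n).ncard : ℝ) := by
    intro n
    have hfin : (ball r n).Finite := ball_finite n
    have hmem : (1 : FreeGroup (Fin r)) ∈ ball r n := by
      show (1 : FreeGroup (Fin r)).norm ≤ n
      rw [FreeGroup.norm_one]; omega
    have e : ({w : FreeGroup (Fin r) | w ≠ 1}) ∩ ball r n = ball r n \ {1} := by
      ext w; simp [and_comm]
    have hc : (ball r n \ {1}).ncard + 1 = (ball r n).ncard :=
      Set.ncard_sdiff_singleton_add_one hmem hfin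
    have hpos : (0 : ℝ) < ((ball r n).ncard : ℝ) := by
      have : 0 < (ball r n).ncard := by omega
      exact_mod_cast this
    unfold prob
    rw [e]
    have hc' : ((ball r n \ {1}).ncard : ℝ) = ((ball r n).ncard : ℝ) - 1 := by
      have : ((ball r n \ {1}).ncard : ℝ) + 1 = ((ball r n).ncard : ℝ) := by exact_mod_cast hc
      linarith
    rw [hc']
    field_simp
  have h2 : Tendsto (fun n => ((ball r n).ncard : ℝ)) atTop atTop := by
    have h3 : Tendsto (fun n : ℕ => (2 : ℝ) ^ n) atTop atTop :=
      tendsto_pow_atTop_atTop_of_one_lt (by norm_num)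
    refine tendsto_atTop_mono (fun n => ?_) h3
    have h4 : 2 ^ n ≤ (2 * r - 1) ^ n := Nat.pow_le_pow_left (by omega) n
    exact_mod_cast h4.trans (ball_lower hr n)
  have h3 : Tendsto (fun n => 1 - 1 / ((ball r n).ncard : ℝ)) atTop (𝓝 (1 - 0)) := by
    apply Tendsto.sub tendsto_const_nhds
    have h4 := h2.inv_tendsto_atTop
    refine h4.congr (fun n => ?_)
    simp
  rw [sub_zero] at h3
  exact h3.congr (fun n => (h1 n).symm)

/-- **MP_b831a3_al, Q1.** For every rank `r ≥ 2` there is a finitely generated subsemigroup `M` of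
`F_r` (the subsemigroup generated by a finite set `S`) of density `0` whose automorphic closure is
`F_r ∖ {1}`, and hence has density `1`. -/
theorem result (r : ℕ) (hr : 2 ≤ r) : ∃ S : Set (FreeGroup (Fin r)), S.Finite ∧
    Tendsto (prob (Subsemigroup.closure S : Set (FreeGroup (Fin r)))) atTop (𝓝 0) ∧
    autClosure (Subsemigroup.closure S : Set (FreeGroup (Fin r))) = {w | w ≠ 1} ∧
    Tendsto (prob (autClosure (Subsemigroup.closure S : Set (FreeGroup (Fin r))))) atTop
      (𝓝 1) := by
  obtain ⟨o, ho⟩ : ∃ o : Fin r, o = ⟨0, by omega⟩ := ⟨_, rfl⟩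
  obtain ⟨a, ha⟩ : ∃ a : Fin r, a = ⟨1, by omega⟩ := ⟨_, rfl⟩
  have hao : a ≠ o := by rw [ha, ho]; simp
  have haut : autClosure (M o : Set (FreeGroup (Fin r))) = {w | w ≠ 1} := by
    ext w
    constructor
    · rintro ⟨φ, m, hm, rfl⟩
      intro h
      have hm1 : m = 1 := φ.injective (by rw [h, _root_.map_one])
      obtain ⟨-, ⟨x, L, h2, -⟩, -⟩ := good_of_mem o m hm
      rw [hm1, toWord_one] at h2
      exact absurd h2 (by simp)
    · intro hw
      obtain ⟨φ, hφ⟩ := autM_of_ne_one o a hao w hw
      exact ⟨φ.symm, φ w, hφ, by simp⟩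
  refine ⟨gens o, gens_finite o, prob_M o hr, haut, ?_⟩
  show Tendsto (prob (autClosure (M o : Set (FreeGroup (Fin r))))) atTop (𝓝 1)
  rw [haut]
  exact prob_compl_one hr

end density

end Pool.Agent.Results.MP_b831a3_al.DenseAutomorphicClosure
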